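import Mathlib
import Pool.Agent.J4H32.FinM

/-!
# A proportion of the tuples has primes in all the positions `1, ..., j` and `P_2` in all the others

Let `j ≥ 1`, `l ≥ 0` and `ε > 0`, and put `ρ_j = (5 / 18) ^ (j - 1)` for `j ≠ 2`, `ρ_2 = 1 / 3`. There are `z`, `n₀`
and `C`, depending only on `j`, `l`, `ε`, such that the following holds for every finite set `V` of at least `n₀`
primitive linear forms such that for every prime `p ≤ z` there is a residue class modulo `p` on which no form of `V`
is divisible by `p` (e. g. `V = {x + a : a ∈ A}` for an ARBITRARY set `A` of at least `n₀` multiples of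
`M = ∏_{p ≤ z} p`).

For at least `(ρ_j - ε) |V| ^ (j + l)` of the tuples `(f_1, ..., f_{j + l})` of distinct forms of `V`, at least
`N / (log N) ^ C` of the `n ≤ N` make `f_1(n), ..., f_j(n)` ALL primes and `f_{j + 1}(n), ..., f_{j + l}(n)` ALL numbers
with at most two prime factors, all of them at least `N ^ (1 / 7)`. This holds

1. for infinitely many `N` in any prescribed sequence of scales, if `V` is fixed and the slopes are positive; so for at
   least `(ρ_j - ε) |A| ^ (j + l)` of the `(a_1, ..., a_{j + l})` from `A` there are infinitely many `n` such that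
   `n + a_i` is prime for `i ≤ j` and has at most two prime factors for `i > j`;
2. at every large scale `N`, uniformly in `V`, if the forms of `V` are in a window at the scale `N`.

The proportion depends only on the number `j` of the primes, not on the length `j + l` of the tuples. For `j = 1` it is
`1 - ε` (here one has more, see `ChenConstellations`), for `j = 2` it is `1 / 3 - ε`: e. g. for at least a third of the
quintuples of shifts, `n + a_1` and `n + a_2` are prime and `n + a_3`, `n + a_4`, `n + a_5` are `P_2`, infinitely often.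
For `l = 0` the result is that of the starting files (`Pool.Agent.W25`, the constant `18 / 5` in place of the `4` of
the Maynard-Tao theorem, see `MP_6a20cc_nt/HereditaryFiveEighteenths`); with `l > 0` it is new to me: the known theorems
with several primes (Maynard, Tao, Pintz) say nothing on the other numbers of the tuple, and Chen's method gives one
prime.

Method. The theorem of `PrimesAmongAlmostPrimes` for tuples of length `T + l` with weights on the first `T` positions
only (`WtQ`), the count of the `j`-subsets in a down-closed family of subsets of `T` positions in which every weight has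
a member of weight at least `5 / 18` (`Pool.Agent.W25.QL`), and averaging over the tuples of length `T + l` (`MixC`,
`MixP`, `FinM`).
-/

set_option autoImplicit false

namespace Pool.Agent.Results.MP_68a45e_nt.PrescribedPrimes

open Finset Filter

/-- the value at `n` of the linear form `a x + b`, given by `f = (a, b)`; `0` if it is negative -/
def value (f : ℤ × ℤ) (n : ℕ) : ℕ := (f.1 * (n : ℤ) + f.2).toNat

/-- `m > 1` has at most two prime factors, counted with multiplicity, and all of them are at least `y` -/
def ChenNumber (y : ℝ) (m : ℕ) : Prop :=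
  1 < m ∧ m.primeFactorsList.length ≤ 2 ∧ ∀ q ∈ m.primeFactors, y ≤ q

open Classical in
/-- the number of `n ≤ N` at which the first `j` forms are primes and all the `j + l` forms have at most two prime
factors, all of them at least `N ^ (1 / 7)` -/
noncomputable def mixed {j l : ℕ} (N : ℕ) (f : Fin (j + l) → ℤ × ℤ) : ℕ :=
  ((Icc 1 N).filter (fun n : ℕ => (∀ i, ChenNumber ((N : ℝ) ^ (1 / 7 : ℝ)) (value (f i) n)) ∧
    ∀ i : Fin j, (value (f (Fin.castAdd l i)) n).Prime)).card

open Classical in
/-- the `r`-tuples of distinct forms from `V` -/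
noncomputable def distinct (r : ℕ) (V : Finset (ℤ × ℤ)) : Finset (Fin r → ℤ × ℤ) :=
  (Fintype.piFinset (fun _ : Fin r => V)).filter (fun f => Function.Injective f)

/-- for every prime `p ≤ z` there is a residue class `x` modulo `p` on which no form of `V` is divisible by `p` -/
def Unobstructed (z : ℕ) (V : Finset (ℤ × ℤ)) : Prop :=
  ∀ p : ℕ, p.Prime → p ≤ z → ∃ x : ℤ, ∀ f ∈ V, ¬ (p : ℤ) ∣ f.1 * x + f.2

/-- the primitive form `f` is in the window at the scale `N`: `0 < |f.1| ≤ A`, `|f.2| ≤ N / 2`, and the values at
`N / 16` and `N / 2` (hence between) are at least `N / 20` -/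
def Window (A N : ℕ) (f : ℤ × ℤ) : Prop :=
  f.1 ≠ 0 ∧ |f.1| ≤ A ∧ 2 * |f.2| ≤ N ∧ IsCoprime f.1 f.2 ∧
    (N : ℝ) / 20 ≤ f.1 * ((N : ℝ) / 16) + f.2 ∧ (N : ℝ) / 20 ≤ f.1 * ((N : ℝ) / 2) + f.2

/-- the proportion `ρ_j` -/
noncomputable def proportion (j : ℕ) : ℝ := if j = 2 then 1 / 3 else (5 / 18) ^ (j - 1)

open Classical in
/-- **A proportion of the tuples has primes in the first `j` positions and `P_2` in the others.** -/
theorem result (j l : ℕ) (hj : 1 ≤ j) (ε : ℝ) (hε : 0 < ε) : ∃ z n₀ C : ℕ,
    -- 1. for a fixed set of forms, infinitely many scales of any sequence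
    (∀ V : Finset (ℤ × ℤ), (∀ f ∈ V, 0 < f.1 ∧ IsCoprime f.1 f.2) → Unobstructed z V → n₀ ≤ V.card →
      ∀ s : ℕ → ℕ, StrictMono s → (proportion j - ε) * (V.card : ℝ) ^ (j + l) ≤
        (((distinct (j + l) V).filter (fun f => ∃ᶠ i : ℕ in atTop,
          (s i : ℝ) / (Real.log (s i)) ^ C ≤ (mixed (s i) f : ℝ))).card : ℝ)) ∧
    -- 2. for forms in a window, every large scale
    (∀ A : ℕ, ∀ᶠ N : ℕ in atTop, ∀ V : Finset (ℤ × ℤ), (∀ f ∈ V, Window A N f) →
      Unobstructed z V → n₀ ≤ V.card → (proportion j - ε) * (V.card : ℝ) ^ (j + l) ≤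
        (((distinct (j + l) V).filter (fun f =>
          (N : ℝ) / (Real.log N) ^ C ≤ (mixed N f : ℝ))).card : ℝ)) := by
  obtain ⟨z, n₀, C, h1, h2⟩ := Pool.Agent.J4H32.mixW j l hj ε hε
  refine ⟨z, n₀, C, ?_, ?_⟩
  · intro V hV hloc hVc s hs
    refine (h2 V hV hloc hVc s hs).trans ?_
    rw [Nat.cast_le]
    apply card_le_card
    intro f hf
    simp only [mem_filter, distinct] at hf ⊢
    exact ⟨⟨hf.1, hf.2.1⟩, hf.2.2⟩
  · intro A
    filter_upwards [h1 A] with N hN V hV hloc hVc
    refine (hN V hV hloc hVc).trans ?_
    rw [Nat.cast_le]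
    apply card_le_card
    intro f hf
    simp only [mem_filter, distinct] at hf ⊢
    exact ⟨⟨hf.1, hf.2.1⟩, hf.2.2⟩

end Pool.Agent.Results.MP_68a45e_nt.PrescribedPrimes
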